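import Mathlib
import Pool.Agent.FRC.H1A
import Pool.Agent.FRC.H2A
import Pool.Agent.FRC.H3A

open CategoryTheory CategoryTheory.Abelian NumberField

namespace Pool.Agent.FRC.Draft

open Pool.Agent.FRC

/-- B -/
theorem baseField (k : Type) [Field k] [NumberField k] (ℓ : ℕ) [Fact ℓ.Prime] (n : ℕ) :
    (∀ V W : MixCat k ℓ, Subsingleton (Ext.{1} V W n)) ↔
      ∀ V W : MixCat ℚ ℓ, Subsingleton (Ext.{1} V W n) := base_field k ℓ n

/-- A -/
theorem cdOne (k : Type) [Field k] [NumberField k] (ℓ : ℕ) [Fact ℓ.Prime] :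
    ((∀ n, 2 ≤ n → ∀ V W : MixCat k ℓ, Subsingleton (Ext.{1} V W n)) ∧
      ∃ (V W : MixCat k ℓ) (x : Ext.{1} V W 1), x ≠ 0) ↔
    ∀ W : MixCat ℚ ℓ, Simple W → (∃ m : ℤ, m ≤ 0 ∧ IsPure W.obj m) →
        Subsingleton (Ext.{1} (unitObj ℚ ℓ) W 2) := by
  constructor
  · intro h
    refine (reduction ℚ ℓ).mp ?_
    intro n hn
    exact (base_field k ℓ n).mp (h.1 n hn)
  · intro h
    refine ⟨?_, unitObj k ℓ, tateObj k ℓ, ext_one_ne_zero k ℓ⟩
    intro n hn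
    exact (base_field k ℓ n).mpr ((reduction ℚ ℓ).mpr h n hn)

end Pool.Agent.FRC.Draft
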